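import Mathlib
import Pool.Agent.MZA.Cnt
import Pool.Agent.MZA.Zev
import Pool.Agent.MZA.Dic
import Pool.Agent.MZA.All
import Pool.Agent.MZA.Exi
import Pool.Agent.MZA.Qsh
import Pool.Agent.MZA.Rob
import Pool.Agent.MZA.Rdi
import Pool.Agent.MZA.Rem
import Pool.Agent.MZA.Exp
import Pool.Agent.MZA.Lin
import Pool.Agent.MZA.TupV

set_option autoImplicit false

namespace Pool.Agent.Results.MP_2000e9_nt.AbundanceAllWeights

open Pool.Agent.Helper21 Pool.Agent.MZA

/-- The `A`-subspaces of the real numbers, `A` the field of the real algebraic numbers. -/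
abbrev Sub : Type := Submodule (algebraicClosure ℚ ℝ) ℝ

/-- `V` is finite dimensional. -/
def FinDim (V : Sub) : Prop := Module.Finite (algebraicClosure ℚ ℝ) V

/-- The dimension of `V`. -/
noncomputable def dim (V : Sub) : ℕ := Module.finrank (algebraicClosure ℚ ℝ) V

/-- The numbers `x i` are linearly independent over `A` modulo `V`. -/
def IndepMod (V : Sub) {l : ℕ} (x : Fin l → ℝ) : Prop :=
  ∀ c : Fin l → ℝ, (∀ i, IsAlgebraic ℚ (c i)) → ∑ i, c i * x i ∈ V → ∀ i, c i = 0

/-- The tuples of indices `w i` of weight `n i` such that the multiple zeta values `mz (w i)` are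
linearly independent over `A` modulo `V`. -/
def Tuples (V : Sub) {l : ℕ} (n : Fin l → ℕ) : Set (Fin l → List ℕ) :=
  {w | (∀ i, w i ∈ Idx (n i)) ∧ IndepMod V (fun i => mz (w i))}

/-- For some `N` not all multiple zeta values of weight `N` are in `A π ^ N`. -/
def NotAllPi : Prop := ∃ N : ℕ, ∃ w ∈ Idx N, ¬ IsAlgebraic ℚ (mz w / Real.pi ^ N)

private theorem indepMod_iff (V : Sub) {l : ℕ} (x : Fin l → ℝ) :
    IndepMod V x ↔ LinearIndependent (algebraicClosure ℚ ℝ) (fun i => V.mkQ (x i)) := by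
  rw [Fintype.linearIndependent_iff]
  have key : ∀ g : Fin l → algebraicClosure ℚ ℝ, ∑ i, g i • V.mkQ (x i) = 0 ↔
      ∑ i, (g i : ℝ) * x i ∈ V := by
    intro g
    have e : ∑ i, g i • V.mkQ (x i) = V.mkQ (∑ i, (g i : ℝ) * x i) := by
      rw [map_sum]
      apply Finset.sum_congr rfl
      intro i _
      rw [← map_smul, Algebra.smul_def]
      rfl
    rw [e, Submodule.mkQ_apply, Submodule.Quotient.mk_eq_zero]
  constructor
  · intro h g hg i
    have h1 := h (fun i => (g i : ℝ)) (fun i => mem_algebraicClosure_iff.1 (g i).2)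
      ((key g).1 hg) i
    exact Subtype.ext h1
  · intro h c hc hs i
    have h1 := h (fun i => ⟨c i, mem_algebraicClosure_iff.2 (hc i)⟩) ((key _).2 hs) i
    exact congrArg (fun z : algebraicClosure ℚ ℝ => (z : ℝ)) h1

private theorem tuples_eq (V : Sub) {l : ℕ} (n : Fin l → ℕ) : Tuples V n = indm V n := by
  ext w
  simp only [Tuples, indm, Set.mem_ofPred_eq, indepMod_iff]

private theorem disjoint_of (V : Sub) {l : ℕ} (n : Fin l → ℕ)
    (h : IndepMod V (fun i => Real.pi ^ n i)) :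
    Disjoint V (Submodule.span (algebraicClosure ℚ ℝ) (Set.range (fun i => Real.pi ^ n i))) := by
  rw [Submodule.disjoint_def]
  intro y hy hy2
  rw [Submodule.mem_span_range_iff_exists_fun] at hy2
  obtain ⟨c, rfl⟩ := hy2
  have e : ∑ i, c i • Real.pi ^ n i = ∑ i, (c i : ℝ) * Real.pi ^ n i := by
    apply Finset.sum_congr rfl
    intro i _
    rw [Algebra.smul_def]
    rfl
  rw [e] at hy ⊢
  have h1 := h (fun i => (c i : ℝ)) (fun i => mem_algebraicClosure_iff.1 (c i).2) hy
  apply Finset.sum_eq_zero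
  intro i _
  rw [show (c i : ℝ) = 0 from h1 i, zero_mul]

/-- (2) without a condition on `V` if some multiple zeta value of some weight `N` is not in
`A π ^ N` -/
private theorem part1 (h : St_Rdi) (k : ℕ) : ∃ C : ℕ, ∀ V : Submodule (algebraicClosure ℚ ℝ) ℝ,
    Module.Finite (algebraicClosure ℚ ℝ) V → ∀ (l : ℕ) (n : Fin l → ℕ),
    Module.finrank (algebraicClosure ℚ ℝ) V + l ≤ k → Function.Injective n → (∀ i, C ≤ n i) →
    (Disjoint V (Submodule.span (algebraicClosure ℚ ℝ) (Set.range (fun i => Real.pi ^ n i))) ∨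
      ∃ N : ℕ, ∃ w ∈ Idx N, ¬ IsAlgebraic ℚ (mz w / Real.pi ^ N)) →
    ∏ i, ((2 : ℝ) ^ n i / (n i : ℝ) ^ C) ≤ (indm V n).ncard := by
  rcases h with h | h
  · obtain ⟨C, hC⟩ := thm_TupV1 (Or.inl h) k
    refine ⟨C, fun V hV l n hl hinj hn hd => hC V hV l n hl hinj hn ?_⟩
    rcases hd with hd | ⟨N, w, hw, hd⟩
    · exact hd
    · exact absurd (h N w hw) hd
  · obtain ⟨C, hC⟩ := h k
    refine ⟨max C 2, ?_⟩
    intro V hVf l n hl _ hn _
    have hn2 : ∀ i, 2 ≤ n i := fun i => (le_max_right _ _).trans (hn i)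
    have hnC : ∀ i, C ≤ n i := fun i => (le_max_left _ _).trans (hn i)
    refine le_trans ?_ (tv_prod V hVf k l hl n hn2 (fun i => (2 : ℝ) ^ n i / (n i : ℝ) ^ C)
      (fun i => by positivity) (fun i U h1 h2 => hC (n i) (hnC i) U h1 h2))
    apply Finset.prod_le_prod
    · intro i _
      positivity
    · intro i _
      have h3 : (1 : ℝ) ≤ n i := by
        have : 1 ≤ n i := by have := hn2 i; omega
        exact_mod_cast this
      apply div_le_div_of_nonneg_left (by positivity) (by positivity)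
      exact pow_le_pow_right₀ h3 (le_max_left _ _)

/-- the same for (3) -/
private theorem part2 (h : St_Lin) (δ : ℝ) (hδ : 0 < δ) : ∃ ε : ℝ, 0 < ε ∧ ∃ C : ℕ,
    ∀ V : Submodule (algebraicClosure ℚ ℝ) ℝ,
    Module.Finite (algebraicClosure ℚ ℝ) V → ∀ (l : ℕ) (n : Fin l → ℕ), Function.Injective n →
    (∀ i, C ≤ n i ∧ ((Module.finrank (algebraicClosure ℚ ℝ) V + l : ℕ) : ℝ) ≤ ε * n i) →
    (Disjoint V (Submodule.span (algebraicClosure ℚ ℝ) (Set.range (fun i => Real.pi ^ n i))) ∨
      ∃ N : ℕ, ∃ w ∈ Idx N, ¬ IsAlgebraic ℚ (mz w / Real.pi ^ N)) →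
    (2 : ℝ) ^ ((1 - δ) * ∑ i, (n i : ℝ)) ≤ (indm V n).ncard := by
  rcases h with h | h
  · obtain ⟨ε, hε, C, hC⟩ := thm_TupV2 (Or.inl h) δ hδ
    refine ⟨ε, hε, C, fun V hV l n hinj hn hd => hC V hV l n hinj hn ?_⟩
    rcases hd with hd | ⟨N, w, hw, hd⟩
    · exact hd
    · exact absurd (h N w hw) hd
  · obtain ⟨ε, hε, C, hC⟩ := h δ hδ
    refine ⟨ε, hε, max C 2, ?_⟩
    intro V hVf l n _ hn _
    have hexp : (2 : ℝ) ^ ((1 - δ) * ∑ i, (n i : ℝ)) = ∏ i, (2 : ℝ) ^ ((1 - δ) * (n i : ℝ)) := by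
      rw [Finset.mul_sum, Real.rpow_sum_of_pos (by norm_num)]
    rw [hexp]
    exact tv_prod V hVf _ l le_rfl n (fun i => (le_max_right _ _).trans (hn i).1) _
      (fun i => by positivity) (fun i U h1 h2 => hC (n i) ((le_max_left _ _).trans (hn i).1) U h1
        (le_trans (by exact_mod_cast h2) (hn i).2))

private theorem one_transc (N : ℕ) (hN : 1 ≤ N) : ¬ IsAlgebraic ℚ ((1 : ℝ) / Real.pi ^ N) := by
  intro h
  rw [one_div] at h
  have h2 : IsAlgebraic ℚ (Real.pi ^ N) := by simpa using h.inv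
  exact transcendental_pi (h2.of_pow (by omega))

private theorem indep_of_alg (V : Sub) (hV : ∀ v ∈ V, IsAlgebraic ℚ v) {l : ℕ} (n : Fin l → ℕ)
    (hinj : Function.Injective n) (hn : ∀ i, 1 ≤ n i) : IndepMod V (fun i => Real.pi ^ n i) := by
  intro c hc hs j
  have hs2 := hV _ hs
  have hT : Transcendental (algebraicClosure ℚ ℝ) Real.pi := transcendental_pi.algebraicClosure
  rw [transcendental_iff] at hT
  have hp := hT ((∑ i, Polynomial.C (⟨c i, mem_algebraicClosure_iff.2 (hc i)⟩ : algebraicClosure ℚ ℝ) *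
    Polynomial.X ^ n i) - Polynomial.C (⟨_, mem_algebraicClosure_iff.2 hs2⟩ : algebraicClosure ℚ ℝ)) (by
      rw [map_sub, map_sum, Polynomial.aeval_C]
      simp only [map_mul, Polynomial.aeval_C, map_pow, Polynomial.aeval_X]
      exact sub_self _)
  have h1 := congrArg (fun q => Polynomial.coeff q (n j)) hp
  simp only [Polynomial.coeff_sub, Polynomial.finsetSum_coeff, Polynomial.coeff_C_mul,
    Polynomial.coeff_X_pow, Polynomial.coeff_zero] at h1
  rw [Polynomial.coeff_C_of_ne_zero (by have := hn j; omega), sub_zero,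
    Finset.sum_eq_single j (fun i _ hij => by rw [if_neg (fun h => hij (hinj h.symm)), mul_zero])
      (fun h => absurd (Finset.mem_univ j) h), if_pos rfl, mul_one] at h1
  exact congrArg (fun z : algebraicClosure ℚ ℝ => (z : ℝ)) h1

/-- `Idx N` is the set of the `2 ^ (N - 2)` indices of the multiple zeta values of weight `N`,
`mz w` is the multiple zeta value of the index `w`, `A` is the field of the real algebraic numbers.
`off N x` is the set of the indices of weight `N` whose multiple zeta value is not in `A x`.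
(1) There is `C` such that for every `N ≥ 2` other than `3, 5, 7` at least `2 ^ N / N ^ C` of the
multiple zeta values of weight `N` are not in `A x`, for `x = 1` (they are transcendental) and for every
`x` such that `x / π ^ N` is transcendental.
(2) For every `k` there is `C` such that at least `∏ i, 2 ^ n i / n i ^ C` tuples of multiple zeta
values of the weights `n i` are linearly independent over `A` modulo `V`, for any `l` different
weights `n i ≥ C` and any `A`-subspace `V` of the reals such that `dim V + l ≤ k` and either `V` is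
contained in `A` (if `V = A` the multiple zeta values are linearly independent over `A` together with
`1`) or the numbers `π ^ n i` are linearly independent over `A` modulo `V`.
(3) For every `δ > 0` there are `ε > 0` and `C` such that the same holds with
`2 ^ ((1 - δ) * ∑ i, n i)`, for `n i ≥ C` and `dim V + l ≤ ε * n i`.
If some multiple zeta value of some weight `N` is not in `A π ^ N` then the condition on `V` can be
omitted in (2) and (3). -/
theorem result :
    (∀ N : ℕ, 2 ≤ N → (Idx N).ncard = 2 ^ (N - 2)) ∧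
    (∃ C : ℕ, ∀ N : ℕ, 2 ≤ N → N ≠ 3 → N ≠ 5 → N ≠ 7 → ∀ x : ℝ,
      (x = 1 ∨ ¬ IsAlgebraic ℚ (x / Real.pi ^ N)) →
      (2 : ℝ) ^ N / (N : ℝ) ^ C ≤ (off N x).ncard) ∧
    (∀ k : ℕ, ∃ C : ℕ, ∀ V : Sub, FinDim V → ∀ (l : ℕ) (n : Fin l → ℕ),
      dim V + l ≤ k → Function.Injective n → (∀ i, C ≤ n i) →
      ((∀ v ∈ V, IsAlgebraic ℚ v) ∨ IndepMod V (fun i => Real.pi ^ n i) ∨ NotAllPi) →
      ∏ i, ((2 : ℝ) ^ n i / (n i : ℝ) ^ C) ≤ (Tuples V n).ncard) ∧
    (∀ δ : ℝ, 0 < δ → ∃ ε : ℝ, 0 < ε ∧ ∃ C : ℕ, ∀ V : Sub, FinDim V →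
      ∀ (l : ℕ) (n : Fin l → ℕ), Function.Injective n →
      (∀ i, C ≤ n i ∧ ((dim V + l : ℕ) : ℝ) ≤ ε * n i) →
      ((∀ v ∈ V, IsAlgebraic ℚ v) ∨ IndepMod V (fun i => Real.pi ^ n i) ∨ NotAllPi) →
      (2 : ℝ) ^ ((1 - δ) * ∑ i, (n i : ℝ)) ≤ (Tuples V n).ncard) := by
  refine ⟨fun N hN => (thm_Cnt N hN).2, ?_, fun k => ?_, fun δ hδ => ?_⟩
  · obtain ⟨C, hC⟩ := thm_AllN (thm_All thm_Qsh (thm_Dic thm_Qsh thm_Zev) thm_Cnt)
    refine ⟨C, fun N h2 h3 h5 h7 x hx => hC N h2 h3 h5 h7 x ?_⟩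
    rcases hx with rfl | hx
    · exact one_transc N (by omega)
    · exact hx
  · obtain ⟨C, hC⟩ := part1 (thm_Rdi (thm_Rob thm_Qsh thm_Cnt)) k
    refine ⟨max C 1, fun V hV l n hl hinj hn hd => ?_⟩
    rw [tuples_eq]
    have hn1 : ∀ i, 1 ≤ n i := fun i => (le_max_right _ _).trans (hn i)
    have hd2 : IndepMod V (fun i => Real.pi ^ n i) ∨ NotAllPi := by
      rcases hd with hd | hd
      · exact Or.inl (indep_of_alg V hd n hinj hn1)
      · exact hd
    refine le_trans ?_ (hC V hV l n hl hinj (fun i => (le_max_left _ _).trans (hn i))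
      (hd2.imp (disjoint_of V n) id))
    apply Finset.prod_le_prod
    · intro i _
      positivity
    · intro i _
      have h3 : (1 : ℝ) ≤ n i := by exact_mod_cast hn1 i
      apply div_le_div_of_nonneg_left (by positivity) (by positivity)
      exact pow_le_pow_right₀ h3 (le_max_left _ _)
  · obtain ⟨ε, hε, C, hC⟩ := part2 (thm_Lin (thm_Exp thm_Qsh thm_Cnt thm_Rem)) δ hδ
    refine ⟨ε, hε, max C 1, fun V hV l n hinj hn hd => ?_⟩
    rw [tuples_eq]
    have hd2 : IndepMod V (fun i => Real.pi ^ n i) ∨ NotAllPi := by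
      rcases hd with hd | hd
      · exact Or.inl (indep_of_alg V hd n hinj (fun i => (le_max_right _ _).trans (hn i).1))
      · exact hd
    exact hC V hV l n hinj (fun i => ⟨(le_max_left _ _).trans (hn i).1, (hn i).2⟩)
      (hd2.imp (disjoint_of V n) id)

end Pool.Agent.Results.MP_2000e9_nt.AbundanceAllWeights
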