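import Mathlib
import Pool.Agent.MZG.All41
import Pool.Agent.MZG.FinPoly

set_option autoImplicit false

namespace Pool.Agent.Results.MP_2000e9_nt.AbundanceEveryDepth

open Pool.Agent.Helper21 Pool.Agent.MZA Pool.Agent.MZG

/-- The indices `w` of weight `n` and depth `r` with `mz w` not in `V`. -/
def Out {K : IntermediateField ℚ ℝ} (n r : ℕ) (V : Submodule K ℝ) : Set (List ℕ) :=
  {w | w ∈ Idx n ∧ w.length = r ∧ mz w ∉ V}

/-- **A positive share of the multiple zeta values in every depth `r ≥ 3` and every large weight.**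
`Idx n` is the set of the indices of the multiple zeta values of weight `n`, `mz w` is the multiple zeta
value of the index `w`; there are `(n - 2).choose (r - 1)` indices of weight `n` and depth `r`.

Main clause.  There are numbers `M r`, `N r`, with `M 3 = 500000000`, `N 3 = 40000`, such that for every
subfield `K` of the real numbers, every `K`-subspace `V` of the real numbers, every `r ≥ 3` and every
`n ≥ N r` at least `n ^ (r - 1) / M r` of the multiple zeta values of weight `n` and depth `r` are not in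
`V`, unless `π ^ (2 n) v` is in `V V V` for some `v` in `V`, `v ≠ 0`.

In particular, with the same numbers:
* if `π` is transcendental over `K` and `V` has dimension `k`, at most `k ^ 4` of the `n` are exceptions, the
  same for all `r`;
* if `x / π ^ n` is transcendental, then `n` is not an exception for `V = A x`, where `A` is the field of the
  real algebraic numbers; `π` is transcendental over `A`;
* for EVERY `r ≥ 3` and EVERY `n ≥ N r` at least `n ^ (r - 1) / M r` of the multiple zeta values of weight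
  `n` and depth `r` are transcendental, and at least so many are not polynomials in `π` of degree `< 2 n / 3`
  with coefficients in `A`. -/
theorem result :
    (∀ r n : ℕ, 2 ≤ r → {w : List ℕ | w ∈ Idx n ∧ w.length = r}.ncard = (n - 2).choose (r - 1)) ∧
    ∃ M N : ℕ → ℕ, M 3 = 500000000 ∧ N 3 = 40000 ∧
      (∀ (K : IntermediateField ℚ ℝ) (V : Submodule K ℝ) (r n : ℕ), 3 ≤ r → N r ≤ n →
        (∀ v ∈ V, Real.pi ^ (2 * n) * v ∈ V * V * V → v = 0) →
          n ^ (r - 1) ≤ M r * (Out n r V).ncard) ∧
      (∀ K : IntermediateField ℚ ℝ, Transcendental K Real.pi → ∀ V : Submodule K ℝ,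
        Module.Finite K V → ∃ E : Finset ℕ, E.card ≤ Module.finrank K V ^ 4 ∧
          ∀ r n : ℕ, 3 ≤ r → N r ≤ n → n ∉ E → n ^ (r - 1) ≤ M r * (Out n r V).ncard) ∧
      (∀ (x : ℝ) (r n : ℕ), 3 ≤ r → N r ≤ n → Transcendental ℚ (x / Real.pi ^ n) →
        n ^ (r - 1) ≤ M r * {w : List ℕ | w ∈ Idx n ∧ w.length = r ∧
          ¬ ∃ a : ℝ, IsAlgebraic ℚ a ∧ mz w = a * x}.ncard) ∧
      Transcendental (algebraicClosure ℚ ℝ) Real.pi ∧
      (∀ r n : ℕ, 3 ≤ r → N r ≤ n →
        n ^ (r - 1) ≤ M r * {w : List ℕ | w ∈ Idx n ∧ w.length = r ∧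
          Transcendental ℚ (mz w)}.ncard) ∧
      (∀ r n : ℕ, 3 ≤ r → N r ≤ n →
        n ^ (r - 1) ≤ M r * {w : List ℕ | w ∈ Idx n ∧ w.length = r ∧
          ¬ ∃ p : Polynomial (algebraicClosure ℚ ℝ), 3 * p.natDegree < 2 * n ∧
            mz w = Polynomial.aeval Real.pi p}.ncard) := by
  choose M N h1 hI h3 using all_Ineq
  refine ⟨fun r n hr => ?_, M, N, (h3 3 rfl).1, (h3 3 rfl).2,
    fun K V r n hr hn hV => hI r hr K V n hn hV, fun K hK V hV => ?_,
    fun x r n hr hn hx => fin_line (hI r hr) x n hn hx, transcendental_pi.algebraicClosure,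
    fun r n hr hn => fin_one (hI r hr) transcendental_pi n hn ((h1 r).trans hn),
    fun r n hr hn => fin_poly (hI r hr) (algebraicClosure ℚ ℝ) transcendental_pi.algebraicClosure n
      hn ((h1 r).trans hn)⟩
  · obtain ⟨s, rfl⟩ : ∃ s, r = s + 1 := ⟨r - 1, by omega⟩
    exact CNTR n s (by omega)
  · obtain ⟨E, hE, h⟩ := fin_space K hK V hV
    exact ⟨E, hE, fun r n hr hn hnE => hI r hr K V n hn (h n hnE)⟩

end Pool.Agent.Results.MP_2000e9_nt.AbundanceEveryDepth
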