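import Mathlib
import Pool.Agent.MZF.Ins
import Pool.Agent.MZF.TP
import Pool.Agent.MZF.Flg
import Pool.Agent.MZF.BoxV
import Pool.Agent.MZF.KstV
import Pool.Agent.MZF.KeyV
import Pool.Agent.MZF.AnyV
import Pool.Agent.MZF.InfV
import Pool.Agent.MZF.DedV
import Pool.Agent.MZF.Low
import Pool.Agent.MZF.WtsV

set_option autoImplicit false

namespace Pool.Agent.Results.MP_2000e9_nt.AbundanceFixedDepth

open Pool.Agent.Helper21 Pool.Agent.MZA

/-- `W n r`: the indices of weight `n` and depth `r` with at least one even entry. -/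
def W (n r : ℕ) : Set (List ℕ) := {w | w ∈ Idx n ∧ w.length = r ∧ ∃ a ∈ w, Even a}

/-- Those with a multiple zeta value that is not in `V`. -/
def Out {K : IntermediateField ℚ ℝ} (V : Submodule K ℝ) (n r : ℕ) : Set (List ℕ) :=
  {w | w ∈ W n r ∧ mz w ∉ V}

private theorem mz_eq {n : ℕ} {w : List ℕ} (hw : w ∈ Idx n) : mz w = zl w :=
  main_mzv w ⟨hw.1, hw.2.1⟩

private theorem out_eq {K : IntermediateField ℚ ℝ} (V : Submodule K ℝ) (n r : ℕ) :
    Out V n r = Pool.Agent.MZF.OutEv n r V := by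
  ext w
  constructor
  · rintro ⟨h1, h2⟩
    refine ⟨h1, ?_⟩
    rwa [mz_eq h1.1] at h2
  · rintro ⟨h1, h2⟩
    refine ⟨h1, ?_⟩
    rwa [mz_eq h1.1]

private theorem even_entry : ∀ w : List ℕ, (∀ a ∈ w, ¬ Even a) → (w.sum + w.length) % 2 = 0 := by
  intro w
  induction w with
  | nil =>
    intro _
    rfl
  | cons a t ih =>
    intro h
    have h1 := ih fun b hb => h b (List.mem_cons_of_mem _ hb)
    have h2 := h a List.mem_cons_self
    rw [Nat.even_iff] at h2
    rw [List.sum_cons, List.length_cons]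
    omega

/-- `K` is any subfield of the real numbers over which `π` is transcendental, for example the field of
all real algebraic numbers; `V` is any `K`-subspace of the real numbers of dimension at most `k`, `k ≥ 1`,
for example `K` or `K x`; `r ≥ 2` is the depth.  `W n r` contains all indices of depth `r` and weight `n` if
`n + r` is odd.
(1) The number of the multiple zeta values of weight `n` and depth `r` outside `V` tends to infinity
with `n`.
(2) For all but at most `C k log X` of the weights `n ≤ X` at least the share `1 / r - ε` of the multiple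
zeta values with indices in `W n r` are outside `V`; `C` depends only on `r` and `ε`. -/
theorem result :
    Transcendental (algebraicClosure ℚ ℝ) Real.pi ∧
    (∀ n r : ℕ, Odd (n + r) → W n r = {w | w ∈ Idx n ∧ w.length = r}) ∧
    ∀ r : ℕ, 2 ≤ r → ∀ ε : ℝ, 0 < ε → ∃ C : ℝ,
      ∀ K : IntermediateField ℚ ℝ, Transcendental K Real.pi →
      ∀ (V : Submodule K ℝ) (k : ℕ), Module.Finite K V → Module.finrank K V ≤ k → 1 ≤ k →
        Filter.Tendsto (fun n => (Out V n r).ncard) Filter.atTop Filter.atTop ∧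
        (∀ X : ℕ, 2 ≤ X →
          ({n : ℕ | 1 ≤ n ∧ n ≤ X ∧
            ((Out V n r).ncard : ℝ) < (1 / r - ε) * (W n r).ncard}.ncard : ℝ) ≤
              C * k * Real.log X) := by
  have hTp : Pool.Agent.MZF.St_Tp := fun T S Z h1 h2 h3 => Pool.Agent.MZF.thm_TP T S h1 h2 Z h3
  have hBox := Pool.Agent.MZF.thm_BoxV Pool.Agent.MZF.thm_Ins hTp Pool.Agent.MZF.thm_Flg
  have hKey := Pool.Agent.MZF.thm_KeyV Pool.Agent.MZF.thm_KstV hBox
  have hAny := Pool.Agent.MZF.thm_AnyV hBox
  refine ⟨transcendental_pi.algebraicClosure, ?_, ?_⟩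
  · intro n r hnr
    ext w
    constructor
    · rintro ⟨h1, h2, -⟩
      exact ⟨h1, h2⟩
    · rintro ⟨h1, h2⟩
      refine ⟨h1, h2, ?_⟩
      by_contra hcon
      push Not at hcon
      have h3 := even_entry w hcon
      rw [h1.2.2, h2] at h3
      rw [Nat.odd_iff] at hnr
      omega
  intro r hr ε hε
  obtain ⟨s, rfl⟩ : ∃ s, r = s + 1 := ⟨r - 1, by omega⟩
  have hs : 1 ≤ s := by omega
  obtain ⟨C, hC⟩ := Pool.Agent.MZF.thm_WtsV hKey Pool.Agent.MZF.thm_DedV Pool.Agent.MZF.thm_Low
    s ε hs hε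
  refine ⟨C, ?_⟩
  intro K hK V k hfd hfr hk
  have e1 : ((s + 1 : ℕ) : ℝ) = (s : ℝ) + 1 := by push_cast; rfl
  simp only [out_eq, e1]
  refine ⟨Pool.Agent.MZF.thm_InfV hAny K hK s V hs hfd, fun X hX => ?_⟩
  exact hC K hK k V X hfd hfr hk hX

end Pool.Agent.Results.MP_2000e9_nt.AbundanceFixedDepth
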