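import Mathlib
import Pool.Agent.OWD.SG2

set_option autoImplicit false

namespace Pool.Agent.Results.MP_2000e9_nt.OddWeightDoubleZetas

open Pool.Agent.MZA (mz Idx)

/-- `mz w` is the multiple zeta value `ζ(w)`, `Idx n` is the set of all indices of weight `n`.
The line `K y` contains a double zeta value `ζ(a, b)` of weight `n` with `a` even, or the values of all
orderings `w'` of a word `w` of sum `n` and odd length with entries `≥ 2`, exactly one of them odd. -/
def Plus (K : Subfield ℝ) (y : ℝ) (n : ℕ) : Prop :=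
  (∃ a b : ℕ, [a, b] ∈ Idx n ∧ Even a ∧ ∃ c ∈ K, mz [a, b] = c * y) ∨
    ∃ w : List ℕ, w.sum = n ∧ (∀ a ∈ w, 2 ≤ a) ∧ w.countP (fun a => Odd a) = 1 ∧ Odd w.length ∧
      ∀ w' : List ℕ, w'.Perm w → ∃ c ∈ K, mz w' = c * y

/-- The same with `a` odd and even length. -/
def Minus (K : Subfield ℝ) (y : ℝ) (n : ℕ) : Prop :=
  (∃ a b : ℕ, [a, b] ∈ Idx n ∧ Odd a ∧ ∃ c ∈ K, mz [a, b] = c * y) ∨
    ∃ w : List ℕ, w.sum = n ∧ (∀ a ∈ w, 2 ≤ a) ∧ w.countP (fun a => Odd a) = 1 ∧ Even w.length ∧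
      ∀ w' : List ℕ, w'.Perm w → ∃ c ∈ K, mz w' = c * y

/-- `n` is mixed over `K`: some line `K y`, `y` real, contains three double zeta values of weight `n`, or `ζ(n)`
and a double zeta value of weight `n ≥ 5`, or is `Plus` and `Minus`. -/
def Mixed (K : Subfield ℝ) (n : ℕ) : Prop :=
  ∃ y : ℝ, 3 ≤ {w : List ℕ | w.length = 2 ∧ w ∈ Idx n ∧ ∃ c ∈ K, mz w = c * y}.ncard ∨
    (5 ≤ n ∧ (∃ c ∈ K, mz [n] = c * y) ∧
      ∃ w : List ℕ, w.length = 2 ∧ w ∈ Idx n ∧ ∃ c ∈ K, mz w = c * y) ∨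
    (Plus K y n ∧ Minus K y n)

/-- There are `n - 2` double zeta values of weight `n` and `(M - 1) / 2` odd weights `n`, `3 ≤ n ≤ M`.

General form: let `K` be a subfield of the real numbers over which `π` is transcendental and `V` a `K`-subspace of
the real numbers of finite dimension `k`.  The number of the odd `n`, `3 ≤ n ≤ M`, such that some `v ≠ 0` in `V`
is in the `K`-span of the multiple zeta values of weight `n` and depth at most 2, plus `k` times the number of the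
odd `n`, `3 ≤ n ≤ M`, which are mixed over `K`, is at most `k (M - 1) / 2`.

Corollary: let `x ≠ 0` be real.  At least half of the odd `n`, `3 ≤ n ≤ M`, have all of the following properties:
for at most two of the indices of weight `n` and length at most 2 the value divided by `x` is algebraic; either all
`ζ(a, b) / x`, `a + b = n`, with `a` even are transcendental and every word of sum `n` and odd length with entries
`≥ 2`, exactly one of them odd, has an ordering whose value divided by `x` is transcendental, or all `ζ(a, b) / x`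
with `a` odd are and every such word of even length has such an ordering; if `n ≥ 5`, then `ζ(n) / x` is
transcendental or all `ζ(a, b) / x`, `a + b = n`, are. -/
theorem result :
    (∀ n : ℕ, {w : List ℕ | w.length = 2 ∧ w ∈ Idx n}.ncard = n - 2) ∧
    (∀ M : ℕ, {n : ℕ | Odd n ∧ 3 ≤ n ∧ n ≤ M}.ncard = (M - 1) / 2) ∧
    (∀ (K : Subfield ℝ), Transcendental K Real.pi → ∀ V : Submodule K ℝ, Module.Finite K V → ∀ M : ℕ,
      {n : ℕ | Odd n ∧ 3 ≤ n ∧ n ≤ M ∧ ∃ v ∈ V, v ≠ 0 ∧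
          v ∈ Submodule.span K {y : ℝ | ∃ w : List ℕ, w ∈ Idx n ∧ w.length ≤ 2 ∧ mz w = y}}.ncard +
        Module.finrank K V * {n : ℕ | Odd n ∧ 3 ≤ n ∧ n ≤ M ∧ Mixed K n}.ncard ≤
      Module.finrank K V * ((M - 1) / 2)) ∧
    (∀ x : ℝ, x ≠ 0 → ∀ M : ℕ, (M - 1) / 2 ≤ 2 * {n : ℕ | Odd n ∧ 3 ≤ n ∧ n ≤ M ∧
      ({w : List ℕ | w.length ≤ 2 ∧ w ∈ Idx n ∧ IsAlgebraic ℚ (mz w / x)}.ncard ≤ 2 ∧
        (((∀ a b : ℕ, [a, b] ∈ Idx n → Even a → Transcendental ℚ (mz [a, b] / x)) ∧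
            ∀ w : List ℕ, w.sum = n → (∀ a ∈ w, 2 ≤ a) → w.countP (fun a => Odd a) = 1 →
              Odd w.length → ∃ w' : List ℕ, w'.Perm w ∧ Transcendental ℚ (mz w' / x)) ∨
          ((∀ a b : ℕ, [a, b] ∈ Idx n → Odd a → Transcendental ℚ (mz [a, b] / x)) ∧
            ∀ w : List ℕ, w.sum = n → (∀ a ∈ w, 2 ≤ a) → w.countP (fun a => Odd a) = 1 →
              Even w.length → ∃ w' : List ℕ, w'.Perm w ∧ Transcendental ℚ (mz w' / x))) ∧
        (5 ≤ n → Transcendental ℚ (mz [n] / x) ∨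
          ∀ a b : ℕ, [a, b] ∈ Idx n → Transcendental ℚ (mz [a, b] / x)))}.ncard) := by
  refine ⟨Pool.Agent.OWD.ASM_total, Pool.Agent.OWD.ASM_odd, fun K hK V hV M => ?_,
    fun x hx M => Pool.Agent.OWD.SG2_half x hx M⟩
  have h1 := Pool.Agent.OWD.SPV Pool.Agent.OWD.E3 K hK V M
  have h2 : Module.finrank K (Pool.Agent.OWD.LIN_D K M) +
      {n : ℕ | Odd n ∧ 3 ≤ n ∧ n ≤ M ∧ Mixed K n}.ncard ≤ (M - 1) / 2 :=
    Pool.Agent.OWD.SG2_cnt K M
  calc _ ≤ Module.finrank K (Pool.Agent.OWD.LIN_D K M) * Module.finrank K V +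
        Module.finrank K V * {n : ℕ | Odd n ∧ 3 ≤ n ∧ n ≤ M ∧ Mixed K n}.ncard :=
        Nat.add_le_add_right h1 _
    _ = Module.finrank K V * (Module.finrank K (Pool.Agent.OWD.LIN_D K M) +
        {n : ℕ | Odd n ∧ 3 ≤ n ∧ n ≤ M ∧ Mixed K n}.ncard) := by ring
    _ ≤ _ := Nat.mul_le_mul_left _ h2

end Pool.Agent.Results.MP_2000e9_nt.OddWeightDoubleZetas
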